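import Pool.Agent.helper52.FM.Final

/-!
# Injective Fréchet modules over weighted convolution algebras of monoids
-/

namespace Pool.Agent.Results.MP_5446c4_an.ConvolutionAlgebras

open Pool.Agent.helper52.FM

universe u

/-- Let `S` be a right cancellative monoid and `w` a sequence of weights whose quotients tend to
zero, and such that `S` is a group or left multiplications do not make the weights much smaller.
The weighted convolution algebra `ℓ¹(S, w)` is a Fréchet algebra. It has a non-zero injective unital
Fréchet module if and only if `S` is finite. If `S` is infinite, then a Fréchet module, unital or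
not, is injective among all Fréchet modules if and only if its action is zero, and for every
continuous character `χ` of `ℓ¹(S, w)`, no non-zero Fréchet module over the Fréchet algebra `ker χ`
is injective. In particular Q1 has a positive answer. -/
theorem result :
    (∀ (S : Type) [Monoid S] [IsRightCancelMul S] (W : Weights S), W.Schwartz →
      (W.Div ∨ ∀ s : S, IsUnit s) →
      IsFrechetAlgebra (L1 W) ∧
      (Finite S → ∃ M : FModule (L1 W) ℂ, M.Unital ∧ M.InjectiveUnital) ∧
      (Infinite S →
        (∀ (X : Type u) [AddCommGroup X] [Module ℂ X] [TopologicalSpace X] [Frechet X]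
          (M : FModule (L1 W) X),
          (M.Unital → M.InjectiveUnital → ∀ x : X, x = 0) ∧
          (M.Injective ↔ ∀ a x, M.act a x = 0)) ∧
        ∀ (χ : L1 W →ₗ[ℂ] ℂ) (hm : ∀ a b, χ (a * b) = χ a * χ b), Continuous χ → χ 1 = 1 →
          IsFrechetAlgebra (kerAlg χ hm) ∧
          ∀ (X : Type u) [AddCommGroup X] [Module ℂ X] [TopologicalSpace X] [Frechet X]
            (M : FModule (kerAlg χ hm) X), M.Injective → ∀ x : X, x = 0)) ∧
    ∃ (A : Type) (_ : NonUnitalRing A) (_ : Module ℂ A) (_ : TopologicalSpace A),
      IsFrechetAlgebra A ∧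
      ∀ (X : Type u) [AddCommGroup X] [Module ℂ X] [TopologicalSpace X] [Frechet X]
        (M : FModule A X), M.Injective → ∀ x : X, x = 0 := by
  refine ⟨fun S _ _ W hS hD => ⟨L1.isFrechetAlgebra W, fun _ => finite_monoid W, fun _ => ?_⟩,
    exists_literal⟩
  have hD' : W.Div := hD.elim id (div_of_unit W)
  exact ⟨fun X _ _ _ _ M => all_zero hS hD' M, fun χ hm hc h1 =>
    ⟨isFrechetAlgebra_ker (L1.isFrechetAlgebra W) hc,
      fun X _ _ _ _ M hI x => ker_zero hS hD' hc h1 M hI x⟩⟩

end Pool.Agent.Results.MP_5446c4_an.ConvolutionAlgebras
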